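import Mathlib
import Pool.Agent.TH857.Corollaries

set_option autoImplicit false

namespace Pool.Agent.Results.MP_23d34e_an.EmbedFiniteHilbert

/-- `X` contains all the finite `ℓ_p`-sums `F 0 ⊕ ⋯ ⊕ F (m - 1)` almost isometrically: for every
`m` and `ε > 0` there is a linear `J` with `‖z‖_p ≤ ‖J z‖ ≤ (1 + ε) ‖z‖_p`, where
`‖z‖_p = (∑ j, ‖z j‖ ^ p) ^ (1 / p)`. -/
def ContainsSums (p : ℝ) (F : ℕ → Type) [∀ j, NormedAddCommGroup (F j)]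
    [∀ j, NormedSpace ℝ (F j)] (X : Type) [NormedAddCommGroup X] [NormedSpace ℝ X] : Prop :=
  ∀ (m : ℕ) (ε : ℝ), 0 < ε → ∃ J : ((j : Fin m) → F j) →ₗ[ℝ] X, ∀ z : (j : Fin m) → F j,
    (∑ j, ‖z j‖ ^ p) ^ (1 / p) ≤ ‖J z‖ ∧ ‖J z‖ ≤ (1 + ε) * (∑ j, ‖z j‖ ^ p) ^ (1 / p)

theorem result (X : Type) [NormedAddCommGroup X] [NormedSpace ℝ X]
    (hX :
      (∃ p : ℝ, 1 ≤ p ∧ (∀ k : ℕ, p ≠ 2 * k) ∧ ContainsSums p (fun _ => ℝ) X) ∨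
      (∃ K : ℝ, 0 < K ∧ ∀ m : ℕ, ∃ x : Fin m → X, (∀ i, ‖x i‖ ≤ 1) ∧
        ∀ a : Fin m → ℝ, K * ∑ i, |a i| ≤ ‖∑ i, a i • x i‖) ∨
      (∃ (F : ℕ → Type) (_ : ∀ j, NormedAddCommGroup (F j)) (_ : ∀ j, NormedSpace ℝ (F j)),
        (∀ j, ∃ x y : F j, ‖x + y‖ ^ 2 + ‖x - y‖ ^ 2 ≠ 2 * ‖x‖ ^ 2 + 2 * ‖y‖ ^ 2) ∧
        ContainsSums 2 F X) ∨
      (∃ (p : ℝ) (F : ℕ → Type) (_ : ∀ j, NormedAddCommGroup (F j))
        (_ : ∀ j, NormedSpace ℝ (F j)), 1 ≤ p ∧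
        (∀ j, ∃ x y : F j, ∀ P : Polynomial ℝ, ∃ t : ℝ, ‖x + t • y‖ ^ p ≠ P.eval t) ∧
        ContainsSums p F X))
    (H : Type) [NormedAddCommGroup H] [InnerProductSpace ℝ H] (A : Set H) (hA : A.Finite) :
    ∃ T : H →ₗ[ℝ] X, Isometry (fun a : A => T a) := by
  have key : ∀ (p : ℝ) (F : ℕ → Type) [∀ j, NormedAddCommGroup (F j)]
      [∀ j, NormedSpace ℝ (F j)], 0 < p →
      (∀ j, ∃ x y : F j, ∀ P : Polynomial ℝ, ∃ t : ℝ, ‖x + t • y‖ ^ p ≠ P.eval t) →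
      Pool.Agent.TH857.EucFin.AlmostContainsSums p F X →
      ∃ T : H →ₗ[ℝ] X, Isometry (fun a : A => T a) := by
    intro p F _ _ hp hF hFX
    obtain ⟨T, hT⟩ := Pool.Agent.TH857.EucFin.embed hp hF hFX A hA
    refine ⟨T, Isometry.of_dist_eq ?_⟩
    intro a b
    rw [dist_eq_norm, hT a a.2 b b.2, Subtype.dist_eq, dist_eq_norm]
  rcases hX with ⟨p, hp, hpe, h⟩ | ⟨K, hK, h⟩ | ⟨F, i1, i2, hF, h⟩ | ⟨p, F, i1, i2, hp, hF, h⟩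
  · exact key p (fun _ => ℝ) (by linarith)
      (fun _ => ⟨0, 1, fun P => Pool.Agent.TH857.EucFin.abs_rpow_not_poly p hpe P⟩) h
  · refine key 1 (fun _ => ℝ) one_pos
      (fun _ => ⟨0, 1, fun P => Pool.Agent.TH857.EucFin.abs_rpow_not_poly 1 ?_ P⟩)
      (Pool.Agent.TH857.EucFin.james K hK h)
    intro k hk
    have h1 : (1 : ℝ) = ((2 * k : ℕ) : ℝ) := by push_cast; exact hk
    have h2 : 1 = 2 * k := by exact_mod_cast h1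
    omega
  · refine key 2 F two_pos ?_ h
    intro j
    obtain ⟨x, y, hxy⟩ := hF j
    refine ⟨x, y, fun P => ?_⟩
    by_contra hno
    push Not at hno
    exact hxy (Pool.Agent.TH857.EucFin.parallelogram_of_poly x y P hno)
  · exact key p F (by linarith) hF h

end Pool.Agent.Results.MP_23d34e_an.EmbedFiniteHilbert
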